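import Pool.Agent.Lib.MP_8e2408_co.Q3

set_option autoImplicit false

namespace Pool.Agent.Results.MP_8e2408_co.QuasiPoly

open Finset

/-- For every `c < 2` there are transitive permutation groups of arbitrarily large degree `n`, with a
solvable normal subgroup of index at most `n`, in which every uniform subset has more than
`exp ((log n) ^ c)` elements. -/
theorem result (c : ℝ) (hc : c < 2) (n₀ : ℕ) :
    ∃ (n : ℕ) (G : Subgroup (Equiv.Perm (Fin n))), n₀ < n ∧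
      (∀ x y : Fin n, ∃ g ∈ G, g x = y) ∧
      (∃ N : Subgroup G, N.Normal ∧ Group.IsSolvable N ∧ N.index ≤ n) ∧
      ∀ T : Finset (Equiv.Perm (Fin n)), T.Nonempty → (∀ g ∈ T, g ∈ G) →
        (∀ x y : Fin n, ((T.filter (fun g => g x = y)).card : ℝ) / T.card = 1 / n) →
        Real.exp (Real.log n ^ c) < T.card := by
  classical
  set d := max c 0 with hd
  have hd2 : d < 2 := max_lt hc (by norm_num)
  have hd0 : 0 ≤ d := le_max_right _ _
  obtain ⟨E, hE⟩ := exists_nat_ge (6 / (2 - d))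
  rw [div_le_iff₀ (by linarith)] at hE
  obtain ⟨z, n, G, N, hz, h1, h2, h3, h4, h5, h6, h7⟩ :=
    Pool.Agent.Lib.MP_8e2408_co.quasi E (n₀ + 3)
  refine ⟨n, G, by omega, h6, ⟨N, h3, h4, h5⟩, fun T hne hT hu => ?_⟩
  have hpos : (0 : ℝ) < T.card := by exact_mod_cast hne.card_pos
  have hn3 : (3 : ℝ) ≤ n := by exact_mod_cast (by omega : 3 ≤ n)
  have h8 := h7 T hne hT (fun x y => by
    have h9 := hu x y
    rw [div_eq_div_iff hpos.ne' (by linarith), one_mul] at h9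
    exact_mod_cast h9)
  have hzr : (1 : ℝ) ≤ z := by exact_mod_cast hz
  have hl1 : 1 ≤ Real.log n := by
    rw [Real.le_log_iff_exp_le (by linarith)]
    linarith [Real.exp_one_lt_d9]
  have hl2 : Real.log n ≤ (z : ℝ) ^ ((E + 4 : ℕ) : ℝ) := by
    have h9 : (n : ℝ) ≤ 2 ^ (z ^ (E + 4)) := by exact_mod_cast h2
    refine (Real.log_le_log (by linarith) h9).trans ?_
    rw [Real.log_pow, Real.rpow_natCast]
    push_cast
    have h10 : (0 : ℝ) ≤ (z : ℝ) ^ (E + 4) := by positivity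
    nlinarith [Real.log_two_lt_d9]
  have h9 : Real.log n ^ c ≤ ((z ^ (2 * E + 2) : ℕ) : ℝ) := by
    calc Real.log n ^ c ≤ Real.log n ^ d := Real.rpow_le_rpow_of_exponent_le hl1 (le_max_left _ _)
      _ ≤ ((z : ℝ) ^ ((E + 4 : ℕ) : ℝ)) ^ d := Real.rpow_le_rpow (by linarith) hl2 hd0
      _ = (z : ℝ) ^ (((E + 4 : ℕ) : ℝ) * d) := (Real.rpow_mul (by linarith) _ _).symm
      _ ≤ (z : ℝ) ^ ((2 * E + 2 : ℕ) : ℝ) :=
          Real.rpow_le_rpow_of_exponent_le hzr (by push_cast; nlinarith)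
      _ = _ := by rw [Real.rpow_natCast]; push_cast; rfl
  have h10 : (4 : ℝ) ^ (z ^ (2 * E + 2)) ≤ T.card := by exact_mod_cast h8
  have h11 : z ^ (2 * E + 2) ≠ 0 := by positivity
  calc Real.exp (Real.log n ^ c) ≤ Real.exp ((z ^ (2 * E + 2) : ℕ) * 1) := by
        rw [mul_one]; exact Real.exp_le_exp.2 h9
    _ = Real.exp 1 ^ (z ^ (2 * E + 2)) := Real.exp_nat_mul _ _
    _ < 4 ^ (z ^ (2 * E + 2)) :=
        pow_lt_pow_left₀ (by linarith [Real.exp_one_lt_d9]) (Real.exp_pos 1).le h11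
    _ ≤ _ := h10

end Pool.Agent.Results.MP_8e2408_co.QuasiPoly
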