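import Pool.Agent.Lib.MP_8e2408_co.U2

set_option autoImplicit false

namespace Pool.Agent.Results.MP_8e2408_co.SolvableUpper

open Finset

/-- A transitive action on `n` points of a finite group with a solvable normal subgroup `N` has a
uniform subset with at most `[G : N] * n ^ ⌈log₂ n⌉` elements. -/
theorem result (G X : Type) [Group G] [Fintype G] [MulAction G X] [Fintype X] [DecidableEq X]
    [Nonempty X] (htr : MulAction.IsPretransitive G X)
    (N : Subgroup G) (hN : N.Normal) (hs : Group.IsSolvable N) :
    ∃ T : Finset G, T.Nonempty ∧
      (∀ x y : X, (T.filter (fun g => g • x = y)).card * Fintype.card X = T.card) ∧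
      T.card ≤ N.index * Fintype.card X ^ Nat.clog 2 (Fintype.card X) := by
  classical
  obtain ⟨I, i1, f, hI, h1, h2, h3⟩ :=
    Pool.Agent.Lib.MP_8e2408_co.Up.good_bot G N hs (Nat.clog 2 (Fintype.card X)) X htr
      inferInstance (Nat.le_pow_clog (by norm_num) _) (fun g hg x => by
        rw [Subgroup.mem_bot.1 hg, one_smul])
  have hf : Function.Injective f := fun a b h => h1 a b (by simp [h])
  have hc : (univ.image f).card = Fintype.card I := by rw [card_image_of_injective _ hf, card_univ]
  refine ⟨univ.image f, univ_nonempty.image f, fun x y => ?_, hc ▸ h3⟩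
  rw [hc, filter_image, card_image_of_injective _ hf]
  exact h2 x y

end Pool.Agent.Results.MP_8e2408_co.SolvableUpper
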